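import Mathlib

set_option autoImplicit false

/-! Forced cliques: the lower bound. If every `m`-set of vertices contains a `t`-clique, then every
large vertex set `U` contains a clique `K` of size `t / 2` with a large common neighbourhood. -/

namespace Pool.Agent.KS6_73.LC

open Finset

section counting

variable {V : Type} [DecidableEq V] (G : SimpleGraph V)

open Classical in
/-- the cliques of size `t` inside `U` -/
noncomputable def cliqs (t : ℕ) (U : Finset V) : Finset (Finset V) :=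
  (powersetCard t U).filter (fun C => G.IsClique (C : Set V))

open Classical in
/-- the common neighbourhood of `K` inside `U` -/
noncomputable def cn (K U : Finset V) : Finset V := U.filter (fun v => ∀ w ∈ K, G.Adj w v)

theorem mem_cliqs {t : ℕ} {U C : Finset V} :
    C ∈ cliqs G t U ↔ (C ⊆ U ∧ C.card = t) ∧ G.IsClique (C : Set V) := by
  classical
  rw [cliqs, mem_filter, mem_powersetCard]

omit [DecidableEq V] in
theorem mem_cn {K U : Finset V} {v : V} : v ∈ cn G K U ↔ v ∈ U ∧ ∀ w ∈ K, G.Adj w v := by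
  classical
  rw [cn, mem_filter]

theorem count1 (m t : ℕ) (U : Finset V)
    (h : ∀ S ⊆ U, S.card = m → ∃ C ⊆ S, G.IsNClique t C) :
    U.card.choose m ≤ (cliqs G t U).card * (U.card - t).choose (m - t) := by
  classical
  have hsub : powersetCard m U ⊆ (cliqs G t U).biUnion
      (fun C => (powersetCard (m - t) (U \ C)).image (fun D => C ∪ D)) := by
    intro S hS
    rw [mem_powersetCard] at hS
    obtain ⟨C, hCS, hC⟩ := h S hS.1 hS.2
    rw [mem_biUnion]
    refine ⟨C, (mem_cliqs G).2 ⟨⟨hCS.trans hS.1, hC.card_eq⟩, hC.isClique⟩, ?_⟩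
    rw [mem_image]
    refine ⟨S \ C, ?_, union_sdiff_of_subset hCS⟩
    rw [mem_powersetCard]
    refine ⟨sdiff_subset_sdiff hS.1 (Subset.refl _), ?_⟩
    rw [card_sdiff_of_subset hCS, hS.2, hC.card_eq]
  calc U.card.choose m = (powersetCard m U).card := (card_powersetCard _ _).symm
    _ ≤ _ := card_le_card hsub
    _ ≤ ∑ C ∈ cliqs G t U, ((powersetCard (m - t) (U \ C)).image (fun D => C ∪ D)).card :=
        card_biUnion_le
    _ ≤ ∑ C ∈ cliqs G t U, (U.card - t).choose (m - t) := by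
        apply sum_le_sum
        intro C hC
        refine card_image_le.trans ?_
        have h1 := (mem_cliqs G).1 hC
        rw [card_powersetCard, card_sdiff_of_subset h1.1.1, h1.1.2]
    _ = _ := by rw [sum_const, smul_eq_mul]

theorem count2 (s t b : ℕ) (hst : s ≤ t) (U : Finset V)
    (h : ∀ K ∈ cliqs G s U, (cn G K U).card ≤ b) :
    (cliqs G t U).card ≤ U.card.choose s * b.choose (t - s) := by
  classical
  have hsub : cliqs G t U ⊆ (cliqs G s U).biUnion
      (fun K => (powersetCard (t - s) (cn G K U)).image (fun D => K ∪ D)) := by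
    intro C hC
    have h1 := (mem_cliqs G).1 hC
    obtain ⟨K, hKC, hK⟩ := exists_subset_card_eq (show s ≤ C.card by omega)
    rw [mem_biUnion]
    refine ⟨K, (mem_cliqs G).2 ⟨⟨hKC.trans h1.1.1, hK⟩, h1.2.subset (by exact_mod_cast hKC)⟩, ?_⟩
    rw [mem_image]
    refine ⟨C \ K, ?_, union_sdiff_of_subset hKC⟩
    rw [mem_powersetCard]
    refine ⟨?_, by rw [card_sdiff_of_subset hKC, hK, h1.1.2]⟩
    intro v hv
    rw [mem_sdiff] at hv
    rw [mem_cn]
    refine ⟨h1.1.1 hv.1, fun w hw => h1.2 (mem_coe.2 (hKC hw)) (mem_coe.2 hv.1) ?_⟩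
    rintro rfl
    exact hv.2 hw
  have h2 : (cliqs G s U).card ≤ U.card.choose s := by
    rw [← card_powersetCard]
    apply card_le_card
    intro K hK
    rw [mem_powersetCard]
    exact ((mem_cliqs G).1 hK).1
  calc (cliqs G t U).card ≤ _ := card_le_card hsub
    _ ≤ ∑ K ∈ cliqs G s U, ((powersetCard (t - s) (cn G K U)).image (fun D => K ∪ D)).card :=
        card_biUnion_le
    _ ≤ ∑ K ∈ cliqs G s U, b.choose (t - s) := by
        apply sum_le_sum
        intro K hK
        refine card_image_le.trans ?_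
        rw [card_powersetCard]
        exact Nat.choose_le_choose _ (h K hK)
    _ = (cliqs G s U).card * b.choose (t - s) := by rw [sum_const, smul_eq_mul]
    _ ≤ _ := Nat.mul_le_mul_right _ h2

theorem count3 (m s t b : ℕ) (hst : s ≤ t) (htm : t ≤ m) (U : Finset V) (hmU : m ≤ U.card)
    (h : ∀ S ⊆ U, S.card = m → ∃ C ⊆ S, G.IsNClique t C)
    (hK : ∀ K ∈ cliqs G s U, (cn G K U).card ≤ b) :
    U.card.choose t ≤ m.choose t * (U.card.choose s * b.choose (t - s)) := by
  have h1 := count1 G m t U h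
  have h2 := count2 G s t b hst U hK
  have h3 : U.card.choose m * m.choose t = U.card.choose t * (U.card - t).choose (m - t) :=
    Nat.choose_mul htm
  have h4 : 0 < (U.card - t).choose (m - t) := Nat.choose_pos (by omega)
  apply Nat.le_of_mul_le_mul_right _ h4
  calc U.card.choose t * (U.card - t).choose (m - t) = U.card.choose m * m.choose t := h3.symm
    _ ≤ ((cliqs G t U).card * (U.card - t).choose (m - t)) * m.choose t :=
        Nat.mul_le_mul_right _ h1
    _ ≤ ((U.card.choose s * b.choose (t - s)) * (U.card - t).choose (m - t)) * m.choose t :=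
        Nat.mul_le_mul_right _ (Nat.mul_le_mul_right _ h2)
    _ = _ := by ring

end counting

/-- `t! ≥ (t / e) ^ t` -/
theorem fact_ge (t : ℕ) : ((t : ℝ) / Real.exp 1) ^ t ≤ (t.factorial : ℝ) := by
  have h := Real.pow_div_factorial_le_exp (t : ℝ) (Nat.cast_nonneg t) t
  rw [div_le_iff₀ (by positivity)] at h
  rw [div_pow, ← Real.exp_nat_mul, mul_one, div_le_iff₀ (Real.exp_pos _)]
  linarith

theorem choose_le_real (m t : ℕ) (ht : 1 ≤ t) :
    ((m.choose t : ℕ) : ℝ) ≤ (Real.exp 1 * m / t) ^ t := by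
  have h1 := Nat.choose_le_pow_div (α := ℝ) t m
  have h2 := fact_ge t
  have ht0 : (0:ℝ) < t := by exact_mod_cast ht
  have h3 : (0:ℝ) < ((t : ℝ) / Real.exp 1) ^ t := by positivity
  refine h1.trans ?_
  calc (m:ℝ) ^ t / (t.factorial : ℝ) ≤ (m:ℝ) ^ t / ((t : ℝ) / Real.exp 1) ^ t :=
        div_le_div_of_nonneg_left (by positivity) h3 h2
    _ = (Real.exp 1 * m / t) ^ t := by
        rw [← div_pow]
        congr 1
        field_simp

/-- the numerical consequence of `count3` -/
theorem numeric (u m s t b : ℕ) (hst : s ≤ t) (ht : 1 ≤ t) (htu : 2 * t ≤ u)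
    (h : u.choose t ≤ m.choose t * (u.choose s * b.choose (t - s))) :
    (u:ℝ) ^ (t - s) ≤ (4 * Real.exp 1 * m / t) ^ t * (b:ℝ) ^ (t - s) := by
  have hu : (0:ℝ) < u := by
    have : 0 < u := by omega
    exact_mod_cast this
  have ht0 : (0:ℝ) < t := by exact_mod_cast ht
  -- lower bound for `u.choose t`
  have h1 : ((u:ℝ) / 2) ^ t ≤ (t.factorial : ℝ) * (u.choose t : ℝ) := by
    have h2 : (u + 1 - t) ^ t ≤ u.descFactorial t := Nat.pow_sub_le_descFactorial u t
    have h3 : ((u + 1 - t : ℕ) : ℝ) ^ t ≤ (t.factorial : ℝ) * (u.choose t : ℝ) := by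
      rw [Nat.descFactorial_eq_factorial_mul_choose] at h2
      exact_mod_cast h2
    refine le_trans ?_ h3
    apply pow_le_pow_left₀ (by positivity)
    have h4 : ((u + 1 - t : ℕ) : ℝ) = u + 1 - t := by
      rw [Nat.cast_sub (by omega)]
      push_cast
      ring
    rw [h4]
    have h5 : 2 * (t:ℝ) ≤ u := by exact_mod_cast htu
    linarith
  have h6 : ((u.choose s : ℕ) : ℝ) ≤ (u:ℝ) ^ s / (s.factorial : ℝ) := Nat.choose_le_pow_div s u
  have h7 : ((b.choose (t - s) : ℕ) : ℝ) ≤ (b:ℝ) ^ (t - s) / ((t - s).factorial : ℝ) :=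
    Nat.choose_le_pow_div (t - s) b
  have h8 : ((t.choose s : ℕ) : ℝ) ≤ 2 ^ t := by exact_mod_cast Nat.choose_le_two_pow t s
  have h9 : (t.factorial : ℝ) = (t.choose s : ℝ) * (s.factorial : ℝ) * ((t - s).factorial : ℝ) := by
    exact_mod_cast (Nat.choose_mul_factorial_mul_factorial hst).symm
  have h10 := choose_le_real m t ht
  have hr : ((u.choose t : ℕ) : ℝ) ≤ (m.choose t : ℝ) * ((u.choose s : ℝ) * (b.choose (t - s) : ℝ)) := by
    exact_mod_cast h
  have hA : (0:ℝ) ≤ (Real.exp 1 * m / t) ^ t := by positivity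
  have h11 : ((u:ℝ) / 2) ^ t ≤ (Real.exp 1 * m / t) ^ t * (2 ^ t * ((u:ℝ) ^ s * (b:ℝ) ^ (t - s))) := by
    calc ((u:ℝ) / 2) ^ t ≤ (t.factorial : ℝ) * (u.choose t : ℝ) := h1
      _ ≤ (t.factorial : ℝ) * ((Real.exp 1 * m / t) ^ t *
            (((u:ℝ) ^ s / (s.factorial : ℝ)) * ((b:ℝ) ^ (t - s) / ((t - s).factorial : ℝ)))) := by
          apply mul_le_mul_of_nonneg_left _ (by positivity)
          refine hr.trans ?_
          apply mul_le_mul h10 _ (by positivity) hA
          exact mul_le_mul h6 h7 (by positivity) (by positivity)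
      _ = (Real.exp 1 * m / t) ^ t * ((t.choose s : ℝ) * ((u:ℝ) ^ s * (b:ℝ) ^ (t - s))) := by
          rw [h9]
          have e1 : ((s.factorial : ℕ) : ℝ) ≠ 0 := by positivity
          have e2 : (((t - s).factorial : ℕ) : ℝ) ≠ 0 := by positivity
          field_simp
      _ ≤ _ := by
          apply mul_le_mul_of_nonneg_left _ hA
          apply mul_le_mul_of_nonneg_right h8 (by positivity)
  have h12 : (u:ℝ) ^ t = (u:ℝ) ^ (t - s) * (u:ℝ) ^ s := by
    rw [← pow_add]
    congr 1
    omega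
  have h13 : (4 * Real.exp 1 * m / t) ^ t = 2 ^ t * (2 ^ t * (Real.exp 1 * m / t) ^ t) := by
    rw [← mul_pow, ← mul_pow]
    congr 1
    ring
  rw [div_pow, div_le_iff₀ (by positivity), h12] at h11
  have hus : (0:ℝ) < (u:ℝ) ^ s := by positivity
  have h14 : (u:ℝ) ^ (t - s) * (u:ℝ) ^ s ≤
      ((4 * Real.exp 1 * m / t) ^ t * (b:ℝ) ^ (t - s)) * (u:ℝ) ^ s := by
    rw [h13]
    refine h11.trans (le_of_eq ?_)
    ring
  exact le_of_mul_le_mul_right h14 hus

/-- the step: a clique of size `t / 2` in `U` with a large common neighbourhood in `U` -/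
theorem step {V : Type} [DecidableEq V] (G : SimpleGraph V) (m t : ℕ) (ht : 1 ≤ t)
    (htm : 2 * t ≤ m) (D : ℝ) (hD : (4 * Real.exp 1 * m / t) ^ 2 < D)
    (h : ∀ S : Finset V, S.card = m → ∃ C ⊆ S, G.IsNClique t C)
    (U : Finset V) (hU : m ≤ U.card) :
    ∃ K ⊆ U, G.IsClique (K : Set V) ∧ K.card = t / 2 ∧ (U.card : ℝ) ≤ (cn G K U).card * D := by
  by_contra hcon
  push Not at hcon
  have ht0 : (0:ℝ) < t := by exact_mod_cast ht
  have hm0 : (0:ℝ) < m := by
    have : 0 < m := by omega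
    exact_mod_cast this
  have hD0 : 0 < D := lt_of_le_of_lt (by positivity) hD
  have hu0 : (0:ℝ) < U.card := by
    have : 0 < U.card := by omega
    exact_mod_cast this
  set b : ℕ := ⌊(U.card : ℝ) / D⌋₊ with hb
  have hK : ∀ K ∈ cliqs G (t / 2) U, (cn G K U).card ≤ b := by
    intro K hK
    have h1 := (mem_cliqs G).1 hK
    apply Nat.le_floor
    rw [le_div_iff₀ hD0]
    exact (hcon K h1.1.1 h1.2 h1.1.2).le
  have h3 := count3 G m (t / 2) t b (by omega) (by omega) U hU (fun S _ hS => h S hS) hK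
  have h4 := numeric U.card m (t / 2) t b (by omega) ht (by omega) h3
  have hbD : (b:ℝ) ≤ (U.card : ℝ) / D := Nat.floor_le (by positivity)
  -- `D ^ (t - t/2) ≤ A ^ t`
  set A : ℝ := 4 * Real.exp 1 * m / t with hA
  have hA1 : 1 ≤ A := by
    rw [hA, le_div_iff₀ ht0, one_mul]
    have h5 : (2:ℝ) * t ≤ m := by exact_mod_cast htm
    have h6 : (1:ℝ) ≤ Real.exp 1 := Real.one_le_exp (by norm_num)
    nlinarith
  have h5 : (U.card : ℝ) ^ (t - t / 2) ≤ A ^ t * ((U.card : ℝ) / D) ^ (t - t / 2) := by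
    refine h4.trans ?_
    apply mul_le_mul_of_nonneg_left _ (by positivity)
    exact pow_le_pow_left₀ (by positivity) hbD _
  have h6 : D ^ (t - t / 2) ≤ A ^ t := by
    rw [div_pow (U.card : ℝ) D, mul_div_assoc', le_div_iff₀ (by positivity)] at h5
    have hup : (0:ℝ) < (U.card : ℝ) ^ (t - t / 2) := by positivity
    have h7 : D ^ (t - t / 2) * (U.card : ℝ) ^ (t - t / 2) ≤ A ^ t * (U.card : ℝ) ^ (t - t / 2) := by
      linarith
    exact le_of_mul_le_mul_right h7 hup
  have h7 : A ^ t ≤ (A ^ 2) ^ (t - t / 2) := by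
    rw [← pow_mul]
    exact pow_le_pow_right₀ hA1 (by omega)
  have h8 : (A ^ 2) ^ (t - t / 2) < D ^ (t - t / 2) :=
    pow_lt_pow_left₀ hD (by positivity) (by omega)
  linarith

/-- the iteration -/
theorem iterate {V : Type} [Fintype V] [DecidableEq V] (G : SimpleGraph V) (m t : ℕ) (ht : 1 ≤ t)
    (htm : 2 * t ≤ m) (D : ℝ) (hD : (4 * Real.exp 1 * m / t) ^ 2 < D)
    (h : ∀ S : Finset V, S.card = m → ∃ C ⊆ S, G.IsNClique t C) :
    ∀ i : ℕ, (∀ j < i, (m:ℝ) * D ^ j ≤ Fintype.card V) →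
      ∃ Q U : Finset V, G.IsClique (Q : Set V) ∧ Q.card = (t / 2) * i ∧
        (∀ v ∈ U, ∀ w ∈ Q, G.Adj w v) ∧ (Fintype.card V : ℝ) ≤ U.card * D ^ i := by
  have hD0 : 0 < D := lt_of_le_of_lt (by positivity) hD
  intro i
  induction i with
  | zero =>
    intro _
    refine ⟨∅, univ, by simp, by simp, by simp, by simp⟩
  | succ i ih =>
    intro hi
    obtain ⟨Q, U, hQ, hQc, hUQ, hU⟩ := ih (fun j hj => hi j (by omega))
    have h1 := hi i (by omega)
    have hmU : m ≤ U.card := by
      have h2 : (m:ℝ) * D ^ i ≤ U.card * D ^ i := h1.trans hU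
      have h3 : (m:ℝ) ≤ U.card := le_of_mul_le_mul_right h2 (by positivity)
      exact_mod_cast h3
    obtain ⟨K, hKU, hK, hKc, hcn⟩ := step G m t ht htm D hD h U hmU
    refine ⟨Q ∪ K, cn G K U, ?_, ?_, ?_, ?_⟩
    · intro a ha b hb hab
      rw [coe_union] at ha hb
      rcases ha with ha | ha
      · rcases hb with hb | hb
        · exact hQ ha hb hab
        · exact hUQ b (hKU (mem_coe.1 hb)) a (mem_coe.1 ha)
      · rcases hb with hb | hb
        · exact (hUQ a (hKU (mem_coe.1 ha)) b (mem_coe.1 hb)).symm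
        · exact hK ha hb hab
    · rw [card_union_of_disjoint, hQc, hKc]
      · ring
      · rw [disjoint_left]
        intro a ha hb
        exact G.loopless.irrefl a (hUQ a (hKU hb) a ha)
    · intro v hv w hw
      rw [mem_cn] at hv
      rcases mem_union.1 hw with hw | hw
      · exact hUQ v hv.1 w hw
      · exact hv.2 w hw
    · calc (Fintype.card V : ℝ) ≤ U.card * D ^ i := hU
        _ ≤ ((cn G K U).card * D) * D ^ i := mul_le_mul_of_nonneg_right hcn (by positivity)
        _ = (cn G K U).card * D ^ (i + 1) := by ring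

end Pool.Agent.KS6_73.LC
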