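import Mathlib

set_option autoImplicit false

/-! Forced cliques: the upper bound. A random graph whose complement has density of order
`1 / log n`. -/

namespace Pool.Agent.KS6_73.LC

open Finset

/-- counting functions whose values on `F` lie in `B` -/
theorem count_fun {α : Type} [Fintype α] [DecidableEq α] (M : ℕ) (F : Finset α)
    (B : Finset (Fin M)) :
    (univ.filter (fun f : α → Fin M => ∀ e ∈ F, f e ∈ B)).card * M ^ F.card
      = B.card ^ F.card * M ^ (Fintype.card α) := by
  have h : (univ.filter (fun f : α → Fin M => ∀ e ∈ F, f e ∈ B))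
      = Fintype.piFinset (fun e => if e ∈ F then B else univ) := by
    ext f
    rw [mem_filter, Fintype.mem_piFinset]
    constructor
    · rintro ⟨-, h⟩ e
      by_cases he : e ∈ F
      · rw [if_pos he]; exact h e he
      · rw [if_neg he]; exact mem_univ _
    · intro h
      refine ⟨mem_univ _, fun e he => ?_⟩
      have := h e
      rwa [if_pos he] at this
  rw [h, Fintype.card_piFinset]
  have h2 : ∀ e : α, (if e ∈ F then B else univ).card = if e ∈ F then B.card else M := by
    intro e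
    split_ifs
    · rfl
    · rw [card_univ, Fintype.card_fin]
  simp_rw [h2]
  rw [prod_ite, prod_const, prod_const]
  have h3 : (univ.filter (fun e => e ∈ F)) = F := by ext e; simp
  have h4 : (univ.filter (fun e => e ∉ F)).card + F.card = Fintype.card α := by
    have := card_filter_add_card_filter_not (s := (univ : Finset α)) (fun e => e ∈ F)
    rw [h3, card_univ] at this
    omega
  rw [h3, mul_assoc, ← pow_add, h4]

/-- sparse sets contain large independent sets -/
theorem greedy {V : Type} [DecidableEq V] (adj : V → V → Prop) [DecidableRel adj]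
    (hs : ∀ u v, adj u v → adj v u) (D : ℕ) :
    ∀ (m : ℕ) (T : Finset V), T.card = m →
    (∀ U ⊆ T, U.Nonempty → ∃ v ∈ U, (U.filter (fun w => w ≠ v ∧ adj v w)).card + 1 ≤ D) →
    ∃ I ⊆ T, (∀ u ∈ I, ∀ v ∈ I, u ≠ v → ¬ adj u v) ∧ T.card ≤ D * I.card := by
  intro m
  induction m using Nat.strong_induction_on with
  | _ m ih =>
    intro T hT hdeg
    rcases T.eq_empty_or_nonempty with rfl | hne
    · exact ⟨∅, by simp, by simp, by simp⟩
    · obtain ⟨v, hv, hvd⟩ := hdeg T (Subset.refl _) hne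
      set N := T.filter (fun w => w ≠ v ∧ adj v w) with hN
      set U := (T.erase v) \ N with hU
      have hUT : U ⊆ T := fun x hx => mem_of_mem_erase (mem_sdiff.1 hx).1
      have hUc : U.card < m := by
        rw [← hT]
        apply card_lt_card
        refine ⟨hUT, fun h => ?_⟩
        have := h hv
        rw [hU, mem_sdiff, mem_erase] at this
        exact this.1.1 rfl
      obtain ⟨I, hI, hind, hcard⟩ := ih U.card hUc U rfl (fun W hW hWn => hdeg W (hW.trans hUT) hWn)
      have hvI : v ∉ I := fun h => by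
        have := hI h
        rw [hU, mem_sdiff, mem_erase] at this
        exact this.1.1 rfl
      have hnadj : ∀ w ∈ I, ¬ adj v w := by
        intro w hw hadj
        have h1 := hI hw
        rw [hU, mem_sdiff, mem_erase] at h1
        apply h1.2
        rw [hN, mem_filter]
        exact ⟨h1.1.2, h1.1.1, hadj⟩
      refine ⟨insert v I, ?_, ?_, ?_⟩
      · intro x hx
        rcases mem_insert.1 hx with h | h
        · rw [h]; exact hv
        · exact hUT (hI h)
      · intro a ha b hb hab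
        rcases mem_insert.1 ha with h | h
        · rcases mem_insert.1 hb with h' | h'
          · exact absurd (h.trans h'.symm) hab
          · rw [h]; exact hnadj b h'
        · rcases mem_insert.1 hb with h' | h'
          · rw [h']; exact fun hh => hnadj a h (hs _ _ hh)
          · exact hind a h b h' hab
      · rw [card_insert_of_notMem hvI]
        have h1 : T.card = (T.erase v).card + 1 := (card_erase_add_one hv).symm
        have h2 : (T.erase v).card ≤ U.card + N.card := by
          rw [hU]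
          have := le_card_sdiff N (T.erase v)
          omega
        have : D * (I.card + 1) = D * I.card + D := by ring
        omega

/-- the graph attached to `f`: `u ~ v` iff `f (u,v) ≠ 0` and `f (v,u) ≠ 0` -/
def gr {n M : ℕ} [NeZero M] (f : Fin n × Fin n → Fin M) : SimpleGraph (Fin n) where
  Adj u v := u ≠ v ∧ f (u, v) ≠ 0 ∧ f (v, u) ≠ 0
  symm := ⟨fun _ _ h => ⟨h.1.symm, h.2.2, h.2.1⟩⟩
  loopless := ⟨fun _ h => h.1 rfl⟩

/-- If no set `U` of at most `s` vertices spans `K |U|` arcs with value `0`, every set of `s`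
vertices contains a clique of size at least `s / (2K)`. -/
theorem clique_of_sparse {n M : ℕ} [NeZero M] (f : Fin n × Fin n → Fin M) (K s : ℕ)
    (hf : ∀ U : Finset (Fin n), U.Nonempty → U.card ≤ s →
      ((U ×ˢ U).filter (fun e => f e = 0)).card < K * U.card)
    (S : Finset (Fin n)) (hS : S.card ≤ s) :
    ∃ I ⊆ S, (gr f).IsClique (I : Set (Fin n)) ∧ S.card ≤ (2 * K) * I.card := by
  classical
  obtain ⟨I, hI, h1, h2⟩ := greedy (fun u v : Fin n => f (u, v) = 0 ∨ f (v, u) = 0)
    (fun u v h => h.symm) (2 * K) S.card S rfl (by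
      intro U hU hUn
      by_contra hcon
      push Not at hcon
      have hUs : U.card ≤ s := (card_le_card hU).trans hS
      have h3 := hf U hUn hUs
      set A := (U ×ˢ U).filter (fun e => f e = 0) with hA
      have h4 : ∑ v ∈ U, (U.filter (fun w => w ≠ v ∧ (f (v, w) = 0 ∨ f (w, v) = 0))).card
          ≤ A.card + A.card := by
        rw [← card_sigma]
        calc (U.sigma fun v => U.filter (fun w => w ≠ v ∧ (f (v, w) = 0 ∨ f (w, v) = 0))).card
            ≤ (A.disjSum A).card := by
              apply card_le_card_of_injOn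
                (fun x : (_ : Fin n) × Fin n => if f (x.1, x.2) = 0 then
                  (Sum.inl (x.1, x.2) : (Fin n × Fin n) ⊕ (Fin n × Fin n))
                  else Sum.inr (x.2, x.1))
              · rintro ⟨v, w⟩ hx
                rw [mem_coe, mem_sigma, mem_filter] at hx
                obtain ⟨hv, hw, -, h⟩ := hx
                dsimp only at hv hw h ⊢
                rw [mem_coe]
                split_ifs with h0
                · rw [inl_mem_disjSum, hA, mem_filter, mem_product]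
                  exact ⟨⟨hv, hw⟩, h0⟩
                · rw [inr_mem_disjSum, hA, mem_filter, mem_product]
                  exact ⟨⟨hw, hv⟩, h.resolve_left h0⟩
              · rintro ⟨v, w⟩ _ ⟨v', w'⟩ _ h
                dsimp only at h
                split_ifs at h with h0 h1 h1
                · simp only [Sum.inl.injEq, Prod.mk.injEq] at h
                  obtain ⟨rfl, rfl⟩ := h
                  rfl
                · simp only [Sum.inr.injEq, Prod.mk.injEq] at h
                  obtain ⟨rfl, rfl⟩ := h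
                  rfl
          _ = A.card + A.card := card_disjSum _ _
      have h5 : U.card * (2 * K) ≤
          ∑ v ∈ U, (U.filter (fun w => w ≠ v ∧ (f (v, w) = 0 ∨ f (w, v) = 0))).card := by
        rw [← smul_eq_mul, ← sum_const]
        apply sum_le_sum
        intro v hv
        have := hcon v hv
        omega
      have : U.card * (2 * K) = K * U.card + K * U.card := by ring
      omega)
  refine ⟨I, hI, ?_, h2⟩
  intro u hu v hv huv
  have := h1 u hu v hv huv
  push Not at this
  exact ⟨huv, this.1, this.2⟩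

theorem count_real {n M : ℕ} (hM : 0 < M) (F : Finset (Fin n × Fin n)) (B : Finset (Fin M)) :
    ((univ.filter (fun f : Fin n × Fin n → Fin M => ∀ e ∈ F, f e ∈ B)).card : ℝ)
      = (M : ℝ) ^ (n * n) * ((B.card : ℝ) / M) ^ F.card := by
  have h := count_fun M F B
  rw [Fintype.card_prod, Fintype.card_fin] at h
  have hr : ((univ.filter (fun f : Fin n × Fin n → Fin M => ∀ e ∈ F, f e ∈ B)).card : ℝ)
      * (M:ℝ) ^ F.card = (B.card : ℝ) ^ F.card * (M:ℝ) ^ (n * n) := by exact_mod_cast h
  have hMr : (0:ℝ) < M := by exact_mod_cast hM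
  rw [div_pow, mul_div_assoc', eq_div_iff (by positivity), hr, mul_comm]


/-- `(K t)! ≥ (K t / e) ^ (K t)`, so `C(t^2, K t) ≤ (e t / K) ^ (K t)` -/
theorem choose_sq_le (K t : ℕ) (hK : 1 ≤ K) (ht : 1 ≤ t) :
    (((t * t).choose (K * t) : ℕ) : ℝ) ≤ (Real.exp 1 * t / K) ^ (K * t) := by
  have h1 := Nat.choose_le_pow_div (α := ℝ) (K * t) (t * t)
  have hK0 : (0:ℝ) < K := by exact_mod_cast hK
  have ht0 : (0:ℝ) < t := by exact_mod_cast ht
  have h2 : (((K * t : ℕ) : ℝ) / Real.exp 1) ^ (K * t) ≤ ((K * t).factorial : ℝ) := by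
    have h := Real.pow_div_factorial_le_exp ((K * t : ℕ) : ℝ) (Nat.cast_nonneg _) (K * t)
    rw [div_le_iff₀ (by positivity)] at h
    rw [div_pow, ← Real.exp_nat_mul, mul_one, div_le_iff₀ (Real.exp_pos _)]
    linarith
  refine h1.trans ?_
  have h3 : (0:ℝ) < (((K * t : ℕ) : ℝ) / Real.exp 1) ^ (K * t) := by
    push_cast
    positivity
  calc ((t * t : ℕ) : ℝ) ^ (K * t) / ((K * t).factorial : ℝ)
      ≤ ((t * t : ℕ) : ℝ) ^ (K * t) / (((K * t : ℕ) : ℝ) / Real.exp 1) ^ (K * t) :=
        div_le_div_of_nonneg_left (by positivity) h3 h2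
    _ = (Real.exp 1 * t / K) ^ (K * t) := by
        rw [← div_pow]
        congr 1
        push_cast
        field_simp

theorem badA (n M K s : ℕ) [NeZero M] (hK : 1 ≤ K)
    (hx : (n:ℝ) * (Real.exp 1 * s / (K * M)) ^ K ≤ 1) :
    ((univ.filter (fun f : Fin n × Fin n → Fin M => ∃ U : Finset (Fin n), U.Nonempty ∧
      U.card ≤ s ∧ K * U.card ≤ ((U ×ˢ U).filter (fun e => f e = 0)).card)).card : ℝ)
      ≤ (M:ℝ)^(n*n) * (s * ((n:ℝ) * (Real.exp 1 * s / (K * M)) ^ K)) := by
  classical
  have hM : 0 < M := Nat.pos_of_ne_zero (NeZero.ne M)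
  have hMr : (0:ℝ) < M := by exact_mod_cast hM
  have hKr : (0:ℝ) < K := by exact_mod_cast hK
  set x : ℝ := (n:ℝ) * (Real.exp 1 * s / (K * M)) ^ K with hxdef
  have hx0 : 0 ≤ x := by positivity
  have hsub : (univ.filter (fun f : Fin n × Fin n → Fin M => ∃ U : Finset (Fin n), U.Nonempty ∧
      U.card ≤ s ∧ K * U.card ≤ ((U ×ˢ U).filter (fun e => f e = 0)).card))
      ⊆ (Icc 1 s).biUnion (fun t => (powersetCard t (univ : Finset (Fin n))).biUnion (fun U =>
        (powersetCard (K * t) (U ×ˢ U)).biUnion (fun F =>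
          univ.filter (fun f : Fin n × Fin n → Fin M => ∀ e ∈ F, f e ∈ ({0} : Finset (Fin M)))))) := by
    intro f hf
    obtain ⟨U, hUn, hUs, hU⟩ := (mem_filter.1 hf).2
    obtain ⟨F, hF, hFc⟩ := exists_subset_card_eq hU
    rw [mem_biUnion]
    refine ⟨U.card, mem_Icc.2 ⟨card_pos.2 hUn, hUs⟩, ?_⟩
    rw [mem_biUnion]
    refine ⟨U, mem_powersetCard.2 ⟨subset_univ _, rfl⟩, ?_⟩
    rw [mem_biUnion]
    refine ⟨F, mem_powersetCard.2 ⟨hF.trans (filter_subset _ _), hFc⟩, ?_⟩
    rw [mem_filter]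
    refine ⟨mem_univ _, fun e he => ?_⟩
    rw [mem_singleton]
    exact (mem_filter.1 (hF he)).2
  have h1 := card_le_card hsub
  have h2 : ((univ.filter (fun f : Fin n × Fin n → Fin M => ∃ U : Finset (Fin n), U.Nonempty ∧
      U.card ≤ s ∧ K * U.card ≤ ((U ×ˢ U).filter (fun e => f e = 0)).card)).card : ℝ)
      ≤ ∑ t ∈ Icc 1 s, ∑ U ∈ powersetCard t (univ : Finset (Fin n)),
          ∑ F ∈ powersetCard (K * t) (U ×ˢ U),
          ((univ.filter (fun f : Fin n × Fin n → Fin M =>
            ∀ e ∈ F, f e ∈ ({0} : Finset (Fin M)))).card : ℝ) := by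
    have h3 := h1.trans (card_biUnion_le.trans (sum_le_sum (fun t _ =>
      card_biUnion_le.trans (sum_le_sum (fun U _ => card_biUnion_le)))))
    exact_mod_cast h3
  refine h2.trans ?_
  have h4 : ∀ t ∈ Icc 1 s, ∑ U ∈ powersetCard t (univ : Finset (Fin n)),
          ∑ F ∈ powersetCard (K * t) (U ×ˢ U),
          ((univ.filter (fun f : Fin n × Fin n → Fin M =>
            ∀ e ∈ F, f e ∈ ({0} : Finset (Fin M)))).card : ℝ) ≤ (M:ℝ)^(n*n) * x := by
    intro t ht
    rw [mem_Icc] at ht
    have hts : (t:ℝ) ≤ s := by exact_mod_cast ht.2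
    have h5 : ∀ U ∈ powersetCard t (univ : Finset (Fin n)),
          ∑ F ∈ powersetCard (K * t) (U ×ˢ U),
          ((univ.filter (fun f : Fin n × Fin n → Fin M =>
            ∀ e ∈ F, f e ∈ ({0} : Finset (Fin M)))).card : ℝ)
          ≤ (Real.exp 1 * s / K) ^ (K * t) * ((M:ℝ)^(n*n) * (1 / M) ^ (K * t)) := by
      intro U hU
      have hUc := (mem_powersetCard.1 hU).2
      have h6 : ∀ F ∈ powersetCard (K * t) (U ×ˢ U),
          ((univ.filter (fun f : Fin n × Fin n → Fin M =>
            ∀ e ∈ F, f e ∈ ({0} : Finset (Fin M)))).card : ℝ)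
            = (M:ℝ)^(n*n) * (1 / M) ^ (K * t) := by
        intro F hF
        rw [count_real hM, (mem_powersetCard.1 hF).2, card_singleton, Nat.cast_one]
      rw [sum_congr rfl h6, sum_const, card_powersetCard, card_product, hUc, nsmul_eq_mul]
      apply mul_le_mul_of_nonneg_right _ (by positivity)
      refine (choose_sq_le K t hK ht.1).trans ?_
      apply pow_le_pow_left₀ (by positivity)
      apply div_le_div_of_nonneg_right _ hKr.le
      exact mul_le_mul_of_nonneg_left hts (Real.exp_pos 1).le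
    refine (sum_le_sum h5).trans ?_
    rw [sum_const, card_powersetCard, card_univ, Fintype.card_fin, nsmul_eq_mul]
    have h8 : ((n.choose t : ℕ) : ℝ) ≤ (n:ℝ) ^ t := by exact_mod_cast Nat.choose_le_pow n t
    have h9 : (n:ℝ) ^ t * ((Real.exp 1 * s / K) ^ (K * t) * ((M:ℝ)^(n*n) * (1 / M) ^ (K * t)))
        = (M:ℝ)^(n*n) * x ^ t := by
      have f0 : (Real.exp 1 * s / K) ^ (K * t) * (1 / (M:ℝ)) ^ (K * t)
          = ((Real.exp 1 * s / (K * M)) ^ K) ^ t := by
        rw [← mul_pow, ← pow_mul]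
        congr 1
        field_simp
      calc (n:ℝ) ^ t * ((Real.exp 1 * s / K) ^ (K * t) * ((M:ℝ)^(n*n) * (1 / M) ^ (K * t)))
          = (M:ℝ)^(n*n) * ((n:ℝ) ^ t * ((Real.exp 1 * s / K) ^ (K * t) * (1 / (M:ℝ)) ^ (K * t))) := by
            ring
        _ = (M:ℝ)^(n*n) * x ^ t := by rw [f0, hxdef, mul_pow]
    calc _ ≤ (n:ℝ) ^ t * ((Real.exp 1 * s / K) ^ (K * t) * ((M:ℝ)^(n*n) * (1 / M) ^ (K * t))) :=
          mul_le_mul_of_nonneg_right h8 (by positivity)
      _ = (M:ℝ)^(n*n) * x ^ t := h9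
      _ ≤ (M:ℝ)^(n*n) * x := by
        apply mul_le_mul_of_nonneg_left _ (by positivity)
        calc x ^ t ≤ x ^ 1 := pow_le_pow_of_le_one hx0 hx ht.1
          _ = x := pow_one x
  refine (sum_le_sum h4).trans ?_
  rw [sum_const, Nat.card_Icc, nsmul_eq_mul, Nat.add_sub_cancel]
  apply le_of_eq
  ring

open Classical in
theorem badB (n M a : ℕ) [NeZero M] :
    ((univ.filter (fun f : Fin n × Fin n → Fin M => ∃ C : Finset (Fin n), C.card = a ∧
      (gr f).IsClique (C : Set (Fin n)))).card : ℝ)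
      ≤ (M:ℝ)^(n*n) * ((n:ℝ) ^ a * (1 - 1 / M) ^ (a * a - a)) := by
  have hM : 0 < M := Nat.pos_of_ne_zero (NeZero.ne M)
  have hMr : (0:ℝ) < M := by exact_mod_cast hM
  have hsub : (univ.filter (fun f : Fin n × Fin n → Fin M => ∃ C : Finset (Fin n), C.card = a ∧
      (gr f).IsClique (C : Set (Fin n))))
      ⊆ (powersetCard a (univ : Finset (Fin n))).biUnion (fun C =>
          univ.filter (fun f : Fin n × Fin n → Fin M =>
            ∀ e ∈ C.offDiag, f e ∈ (univ.erase 0 : Finset (Fin M)))) := by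
    intro f hf
    obtain ⟨C, hC, hcl⟩ := (mem_filter.1 hf).2
    rw [mem_biUnion]
    refine ⟨C, mem_powersetCard.2 ⟨subset_univ _, hC⟩, ?_⟩
    rw [mem_filter]
    refine ⟨mem_univ _, ?_⟩
    rintro ⟨u, v⟩ he
    rw [mem_offDiag] at he
    rw [mem_erase]
    exact ⟨(hcl he.1 he.2.1 he.2.2).2.1, mem_univ _⟩
  have h1 := (card_le_card hsub).trans card_biUnion_le
  have h2 : ((univ.filter (fun f : Fin n × Fin n → Fin M => ∃ C : Finset (Fin n), C.card = a ∧
      (gr f).IsClique (C : Set (Fin n)))).card : ℝ)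
      ≤ ∑ C ∈ powersetCard a (univ : Finset (Fin n)),
        ((univ.filter (fun f : Fin n × Fin n → Fin M =>
            ∀ e ∈ C.offDiag, f e ∈ (univ.erase 0 : Finset (Fin M)))).card : ℝ) := by
    exact_mod_cast h1
  refine h2.trans ?_
  have h3 : ∀ C ∈ powersetCard a (univ : Finset (Fin n)),
        ((univ.filter (fun f : Fin n × Fin n → Fin M =>
            ∀ e ∈ C.offDiag, f e ∈ (univ.erase 0 : Finset (Fin M)))).card : ℝ)
        = (M:ℝ)^(n*n) * (1 - 1 / M) ^ (a * a - a) := by
    intro C hC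
    rw [count_real hM, offDiag_card, (mem_powersetCard.1 hC).2,
      card_erase_of_mem (mem_univ _), card_univ, Fintype.card_fin, Nat.cast_sub hM, Nat.cast_one,
      sub_div, div_self hMr.ne']
  rw [sum_congr rfl h3, sum_const, card_powersetCard, card_univ, Fintype.card_fin, nsmul_eq_mul]
  have h8 : ((n.choose a : ℕ) : ℝ) ≤ (n:ℝ) ^ a := by exact_mod_cast Nat.choose_le_pow n a
  have h9 : (0:ℝ) ≤ 1 - 1 / M := by
    rw [sub_nonneg, div_le_one hMr]
    exact_mod_cast hM
  calc _ ≤ (n:ℝ) ^ a * ((M:ℝ)^(n*n) * (1 - 1 / M) ^ (a * a - a)) :=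
        mul_le_mul_of_nonneg_right h8 (by positivity)
    _ = _ := by ring


/-- Existence of the graph, for suitable parameters. -/
theorem exists_graph (n M K s a : ℕ) (hM : 1 ≤ M) (hK : 1 ≤ K) (hs1 : 1 ≤ s) (ha : 1 ≤ a)
    (h1 : (s:ℝ) * ((n:ℝ) * (Real.exp 1 * s / (K * M)) ^ K) ≤ 1 / 4)
    (h2 : (n:ℝ) * Real.exp (-((a:ℝ) - 1) / M) ≤ 1 / 4) :
    ∃ G : SimpleGraph (Fin n),
      (∀ S : Finset (Fin n), S.card ≤ s →
        ∃ I ⊆ S, G.IsClique (I : Set (Fin n)) ∧ S.card ≤ (2 * K) * I.card) ∧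
      ∀ C : Finset (Fin n), G.IsClique (C : Set (Fin n)) → C.card < a := by
  classical
  have : NeZero M := ⟨by omega⟩
  have hMr : (0:ℝ) < M := by exact_mod_cast hM
  have hKr : (0:ℝ) < K := by exact_mod_cast hK
  have hs1r : (1:ℝ) ≤ s := by exact_mod_cast hs1
  have hx0 : 0 ≤ (n:ℝ) * (Real.exp 1 * s / (K * M)) ^ K := by positivity
  have hx1 : (n:ℝ) * (Real.exp 1 * s / (K * M)) ^ K ≤ 1 := by nlinarith
  have hA := badA n M K s hK hx1
  have hB := badB n M a
  have haa : a * a - a = (a - 1) * a := by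
    rw [Nat.sub_mul, one_mul]
  have hBr : (n:ℝ) ^ a * (1 - 1 / (M:ℝ)) ^ (a * a - a) ≤ 1 / 4 := by
    have h9 : (0:ℝ) ≤ 1 - 1 / M := by
      rw [sub_nonneg, div_le_one hMr]
      exact_mod_cast hM
    have h10 : (1 - 1 / (M:ℝ)) ^ (a - 1) ≤ Real.exp (-((a:ℝ) - 1) / M) := by
      have h11 : 1 - 1 / (M:ℝ) ≤ Real.exp (-(1 / M)) := by
        have := Real.add_one_le_exp (-(1 / (M:ℝ)))
        linarith
      refine (pow_le_pow_left₀ h9 h11 _).trans ?_
      rw [← Real.exp_nat_mul]
      apply Real.exp_le_exp.2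
      apply le_of_eq
      rw [Nat.cast_sub ha]
      push_cast
      ring
    have e0 : 0 ≤ (n:ℝ) * Real.exp (-((a:ℝ) - 1) / M) := by positivity
    calc (n:ℝ) ^ a * (1 - 1 / (M:ℝ)) ^ (a * a - a)
        = (n:ℝ) ^ a * ((1 - 1 / (M:ℝ)) ^ (a - 1)) ^ a := by rw [haa, pow_mul]
      _ ≤ (n:ℝ) ^ a * (Real.exp (-((a:ℝ) - 1) / M)) ^ a := by
          apply mul_le_mul_of_nonneg_left _ (by positivity)
          exact pow_le_pow_left₀ (by positivity) h10 _
      _ = ((n:ℝ) * Real.exp (-((a:ℝ) - 1) / M)) ^ a := by rw [mul_pow]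
      _ ≤ ((n:ℝ) * Real.exp (-((a:ℝ) - 1) / M)) ^ 1 :=
          pow_le_pow_of_le_one e0 (by linarith) ha
      _ ≤ 1 / 4 := by rw [pow_one]; exact h2
  have hT : (0:ℝ) < (M:ℝ) ^ (n * n) := by positivity
  have hA' : ((univ.filter (fun f : Fin n × Fin n → Fin M => ∃ U : Finset (Fin n), U.Nonempty ∧
      U.card ≤ s ∧ K * U.card ≤ ((U ×ˢ U).filter (fun e => f e = 0)).card)).card : ℝ)
      ≤ (M:ℝ) ^ (n * n) * (1 / 4) := hA.trans (mul_le_mul_of_nonneg_left h1 hT.le)
  have hB' := hB.trans (mul_le_mul_of_nonneg_left hBr hT.le)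
  have htot : ((univ : Finset (Fin n × Fin n → Fin M)).card : ℝ) = (M:ℝ) ^ (n * n) := by
    rw [card_univ, Fintype.card_fun, Fintype.card_fin, Fintype.card_prod, Fintype.card_fin]
    push_cast
    rfl
  obtain ⟨f, hf⟩ : ∃ f : Fin n × Fin n → Fin M,
      f ∉ (univ.filter (fun f : Fin n × Fin n → Fin M => ∃ U : Finset (Fin n), U.Nonempty ∧
        U.card ≤ s ∧ K * U.card ≤ ((U ×ˢ U).filter (fun e => f e = 0)).card)) ∪
      (univ.filter (fun f : Fin n × Fin n → Fin M => ∃ C : Finset (Fin n), C.card = a ∧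
        (gr f).IsClique (C : Set (Fin n)))) := by
    by_contra hcon
    push Not at hcon
    have h3 : (univ : Finset (Fin n × Fin n → Fin M)) ⊆ _ := fun f _ => hcon f
    have h4 := (card_le_card h3).trans (card_union_le _ _)
    have h5 := (Nat.cast_le (α := ℝ)).2 h4
    rw [htot, Nat.cast_add] at h5
    linarith
  rw [mem_union, not_or, mem_filter, mem_filter] at hf
  obtain ⟨hf1, hf2⟩ := hf
  refine ⟨gr f, ?_, ?_⟩
  · intro S hS
    exact clique_of_sparse f K s (by
      intro U hUn hUs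
      by_contra hcon
      push Not at hcon
      exact hf1 ⟨mem_univ _, U, hUn, hUs, hcon⟩) S hS
  · intro C hC
    by_contra hcon
    push Not at hcon
    obtain ⟨C', hC', hc⟩ := exists_subset_card_eq hcon
    apply hf2
    refine ⟨mem_univ _, C', hc, ?_⟩
    exact hC.subset (by exact_mod_cast hC')

end Pool.Agent.KS6_73.LC
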